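import Mathlib

namespace Pool.Agent.Helper5.MinkEq

open Matrix

/-- The pair `(L, c)` is an equality case of Minkowski's inhomogeneous product problem. -/
def IsEqualityCase {d : ℕ} (L : Matrix (Fin d) (Fin d) ℝ) (c : Fin d → ℝ) : Prop :=
  L.det ≠ 0 ∧
    ∀ n : Fin d → ℤ, |L.det| / 2 ^ d ≤ |∏ k, ((L *ᵥ fun j => (n j : ℝ)) k + c k)|

/-- The pair `(L, c)` is diagonalisable: after a unimodular integral change of variables
`U` and a shift by an integral vector `m`, the forms become `2 (c_k + L_k(m)) x_k`. -/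
def Diagonalisable {d : ℕ} (L : Matrix (Fin d) (Fin d) ℝ) (c : Fin d → ℝ) : Prop :=
  ∃ (U : Matrix (Fin d) (Fin d) ℤ) (m : Fin d → ℤ), IsUnit U.det ∧
    ∀ (k : Fin d) (x : Fin d → ℝ),
      (L *ᵥ (U.map (Int.cast : ℤ → ℝ) *ᵥ x)) k =
        2 * (c k + (L *ᵥ fun j => (m j : ℝ)) k) * x k

end Pool.Agent.Helper5.MinkEq
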