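import Mathlib
import Pool.Agent.Helper5.MinkEq.Defs

namespace Pool.Agent.Helper5.MinkEq

open Matrix Finset

/-- integral vectors as real vectors -/
def ic {d : ℕ} (n : Fin d → ℤ) : Fin d → ℝ := fun j => (n j : ℝ)

lemma ic_apply {d : ℕ} (n : Fin d → ℤ) (j : Fin d) : ic n j = (n j : ℝ) := rfl

lemma ic_add {d : ℕ} (n m : Fin d → ℤ) : ic (n + m) = ic n + ic m := by
  funext j; simp [ic]

lemma ic_sub {d : ℕ} (n m : Fin d → ℤ) : ic (n - m) = ic n - ic m := by
  funext j; simp [ic]

lemma ic_neg {d : ℕ} (n : Fin d → ℤ) : ic (-n) = - ic n := by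
  funext j; simp [ic]

/-- The triangular case, by induction on the dimension. -/
theorem tri_case : ∀ (d : ℕ) (L : Matrix (Fin d) (Fin d) ℝ) (c : Fin d → ℝ),
    (∀ i j, j < i → L i j = 0) → (∀ i, L i i ≠ 0) →
    (∀ n : Fin d → ℤ, (∏ k, |L k k| / 2) ≤ ∏ k, |(L *ᵥ ic n) k + c k|) →
    (∃ m : Fin d → ℤ, ∀ k, (L *ᵥ ic m) k + c k = L k k / 2) ∧
    (∀ k, ∃ u : Fin d → ℤ, ∀ i, (L *ᵥ ic u) i = if i = k then L k k else 0) := by
  intro d
  induction d with
  | zero =>
    intro L c _ _ _
    exact ⟨⟨fun k => k.elim0, fun k => k.elim0⟩, fun k => k.elim0⟩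
  | succ d ih =>
    intro L c hup hdiag hprod
    set L' : Matrix (Fin d) (Fin d) ℝ := fun i j => L i.castSucc j.castSucc with hL'
    set w : Fin d → ℝ := fun i => L i.castSucc (Fin.last d) with hw
    set t : ℝ := L (Fin.last d) (Fin.last d) with ht
    have htne : t ≠ 0 := hdiag _
    -- values of the forms
    have hval : ∀ (n : Fin (d+1) → ℤ) (i : Fin d),
        (L *ᵥ ic n) i.castSucc = (L' *ᵥ ic (fun j => n j.castSucc)) i
          + w i * (n (Fin.last d) : ℝ) := by
      intro n i
      simp only [Matrix.mulVec, dotProduct, Fin.sum_univ_castSucc, hL', hw, ic]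
    have hlast : ∀ (n : Fin (d+1) → ℤ),
        (L *ᵥ ic n) (Fin.last d) = t * (n (Fin.last d) : ℝ) := by
      intro n
      simp only [Matrix.mulVec, dotProduct, Fin.sum_univ_castSucc, ic]
      rw [Finset.sum_eq_zero, zero_add]
      intro j _
      rw [hup _ _ (Fin.castSucc_lt_last j), zero_mul]
    have hpos' : 0 < ∏ k : Fin d, |L' k k| / 2 := by
      apply Finset.prod_pos
      intro k _
      have : 0 < |L' k k| := abs_pos.mpr (hdiag _)
      positivity
    -- product condition in fibres
    have hfib : ∀ (N : ℤ) (n' : Fin d → ℤ),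
        (∏ k, |L' k k| / 2) * (|t| / 2) ≤
        (∏ k, |(L' *ᵥ ic n') k + (w k * (N : ℝ) + c k.castSucc)|) *
          |t * (N : ℝ) + c (Fin.last d)| := by
      intro N n'
      have h := hprod (Fin.snoc n' N)
      rw [Fin.prod_univ_castSucc, Fin.prod_univ_castSucc] at h
      have e1 : ∀ i : Fin d, (L *ᵥ ic (Fin.snoc n' N)) i.castSucc + c i.castSucc
          = (L' *ᵥ ic n') i + (w i * (N : ℝ) + c i.castSucc) := by
        intro i
        rw [hval]
        simp only [Fin.snoc_castSucc, Fin.snoc_last]
        ring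
      have e2 : (L *ᵥ ic (Fin.snoc n' N)) (Fin.last d) = t * (N : ℝ) := by
        rw [hlast]
        simp only [Fin.snoc_last]
      simp only [e1, e2] at h
      exact h
    -- fibres with small last coordinate are equality cases
    have hkey : ∀ (N : ℤ), |t * (N : ℝ) + c (Fin.last d)| ≤ |t| / 2 →
        (∃ m : Fin d → ℤ, ∀ k, (L' *ᵥ ic m) k + (w k * (N : ℝ) + c k.castSucc) = L' k k / 2) ∧
        (∀ k, ∃ u : Fin d → ℤ, ∀ i, (L' *ᵥ ic u) i = if i = k then L' k k else 0) := by
      intro N hN
      apply ih L' (fun k => w k * (N : ℝ) + c k.castSucc)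
      · intro i j hij
        exact hup _ _ (Fin.castSucc_lt_castSucc_iff.mpr hij)
      · intro i
        exact hdiag _
      · intro n'
        have h := hfib N n'
        have htpos : 0 < |t| / 2 := by
          have := abs_pos.mpr htne
          positivity
        have hP : 0 ≤ ∏ k, |(L' *ᵥ ic n') k + (w k * (N : ℝ) + c k.castSucc)| :=
          Finset.prod_nonneg (fun _ _ => abs_nonneg _)
        have h2 : (∏ k, |L' k k| / 2) * (|t| / 2) ≤
            (∏ k, |(L' *ᵥ ic n') k + (w k * (N : ℝ) + c k.castSucc)|) * (|t| / 2) :=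
          h.trans (mul_le_mul_of_nonneg_left hN hP)
        exact le_of_mul_le_mul_right h2 htpos
    have hhalf : ∀ (N : ℤ), |t * (N : ℝ) + c (Fin.last d)| ≤ |t| / 2 →
        |t * (N : ℝ) + c (Fin.last d)| = |t| / 2 := by
      intro N hN
      obtain ⟨⟨m, hm⟩, _⟩ := hkey N hN
      have h := hfib N m
      have e : (∏ k, |(L' *ᵥ ic m) k + (w k * (N : ℝ) + c k.castSucc)|) =
          ∏ k, |L' k k| / 2 := by
        apply Finset.prod_congr rfl
        intro k _
        rw [hm k, abs_div, abs_of_pos (by norm_num : (0:ℝ) < 2)]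
      rw [e] at h
      exact le_antisymm hN (le_of_mul_le_mul_left h hpos')
    -- choose N0 with value t/2
    obtain ⟨N0, hN0⟩ : ∃ N0 : ℤ, t * (N0 : ℝ) + c (Fin.last d) = t / 2 := by
      set x : ℝ := - c (Fin.last d) / t with hx
      have hr := abs_sub_round x
      have hc : c (Fin.last d) = - (t * x) := by
        rw [hx]; field_simp
      have h1 : |t * ((round x : ℤ) : ℝ) + c (Fin.last d)| ≤ |t| / 2 := by
        have : t * ((round x : ℤ) : ℝ) + c (Fin.last d) = - (t * (x - round x)) := by
          rw [hc]; ring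
        rw [this, abs_neg, abs_mul]
        have := abs_nonneg t
        nlinarith
      have h2 := hhalf _ h1
      have h3 : t * ((round x : ℤ) : ℝ) + c (Fin.last d) = t / 2 ∨
          t * ((round x : ℤ) : ℝ) + c (Fin.last d) = - (t / 2) := by
        have : |t * ((round x : ℤ) : ℝ) + c (Fin.last d)| = |t / 2| := by
          rw [h2, abs_div, abs_of_pos (by norm_num : (0:ℝ) < 2)]
        exact abs_eq_abs.mp this
      rcases h3 with h3 | h3
      · exact ⟨_, h3⟩
      · refine ⟨round x + 1, ?_⟩
        push_cast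
        linarith
    have hA1 : |t * (N0 : ℝ) + c (Fin.last d)| ≤ |t| / 2 := by
      rw [hN0, abs_div, abs_of_pos (by norm_num : (0:ℝ) < 2)]
    have hA2 : |t * ((N0 - 1 : ℤ) : ℝ) + c (Fin.last d)| ≤ |t| / 2 := by
      have : t * ((N0 - 1 : ℤ) : ℝ) + c (Fin.last d) = - (t / 2) := by
        push_cast
        linarith
      rw [this, abs_neg, abs_div, abs_of_pos (by norm_num : (0:ℝ) < 2)]
    obtain ⟨⟨m1, hm1⟩, hu⟩ := hkey N0 hA1
    obtain ⟨⟨m2, hm2⟩, _⟩ := hkey (N0 - 1) hA2
    have hwm : ∀ k, (L' *ᵥ ic (m1 - m2)) k + w k = 0 := by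
      intro k
      have h1 := hm1 k
      have h2 := hm2 k
      rw [ic_sub, Matrix.mulVec_sub, Pi.sub_apply]
      push_cast at h2
      linarith
    constructor
    · refine ⟨Fin.snoc m1 N0, ?_⟩
      intro k
      refine Fin.lastCases ?_ ?_ k
      · rw [hlast]
        simp only [Fin.snoc_last]
        exact hN0
      · intro i
        rw [hval]
        simp only [Fin.snoc_castSucc, Fin.snoc_last]
        have := hm1 i
        have e : L' i i = L i.castSucc i.castSucc := rfl
        rw [← e]
        linarith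
    · intro k
      refine Fin.lastCases ?_ ?_ k
      · refine ⟨Fin.snoc (m1 - m2) 1, ?_⟩
        intro i
        refine Fin.lastCases ?_ ?_ i
        · rw [hlast]
          simp [ht]
        · intro i
          rw [hval]
          simp only [Fin.snoc_castSucc, Fin.snoc_last]
          rw [if_neg (Fin.castSucc_lt_last i).ne]
          have := hwm i
          push_cast
          linarith
      · intro k
        obtain ⟨u, hu⟩ := hu k
        refine ⟨Fin.snoc u 0, ?_⟩
        intro i
        refine Fin.lastCases ?_ ?_ i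
        · rw [hlast]
          simp only [Fin.snoc_last]
          rw [if_neg (Fin.castSucc_lt_last k).ne']
          simp
        · intro i
          rw [hval]
          simp only [Fin.snoc_castSucc, Fin.snoc_last]
          rw [hu i]
          by_cases hik : i = k
          · subst hik
            simp [hL']
          · rw [if_neg hik, if_neg (by
              intro h
              exact hik (Fin.castSucc_injective _ h))]
            simp

end Pool.Agent.Helper5.MinkEq
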