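import Mathlib
import Pool.Agent.Helper5.MinkEq.Defs
import Pool.Agent.Helper5.MinkEq.Tri

namespace Pool.Agent.Helper5.MinkEq

open Matrix Finset

lemma ic_mulVec {d : ℕ} (U : Matrix (Fin d) (Fin d) ℤ) (n : Fin d → ℤ) :
    ic (U *ᵥ n) = (U.map (Int.cast : ℤ → ℝ)) *ᵥ ic n := by
  funext i
  simp [ic, Matrix.mulVec, dotProduct]

/-- Triangularisation of a lattice commensurable with the standard one. -/
theorem triangularize {d : ℕ} (L : Matrix (Fin d) (Fin d) ℝ) (hL : L.det ≠ 0)
    (A : Matrix (Fin d) (Fin d) ℤ) (N : ℤ) (hN : N ≠ 0)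
    (hLA : L * A.map (Int.cast : ℤ → ℝ) = (N : ℝ) • (1 : Matrix (Fin d) (Fin d) ℝ)) :
    ∃ U : Matrix (Fin d) (Fin d) ℤ, IsUnit U.det ∧
      ∀ i j, j < i → (L * U.map (Int.cast : ℤ → ℝ)) i j = 0 := by
  classical
  have hdetA : A.det ≠ 0 := by
    intro h0
    have h1 : (L * A.map (Int.cast : ℤ → ℝ)).det = 0 := by
      rw [Matrix.det_mul]
      have : (A.map (Int.cast : ℤ → ℝ)).det = ((A.det : ℤ) : ℝ) := by
        have := RingHom.map_det (Int.castRingHom ℝ) A
        simpa using this.symm
      rw [this, h0]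
      simp
    rw [hLA, Matrix.det_smul, Matrix.det_one, mul_one] at h1
    have : (N : ℝ) ≠ 0 := by exact_mod_cast hN
    exact absurd h1 (pow_ne_zero _ this)
  set f : (Fin d → ℤ) → (Fin d → ℤ) := fun n => N • (A.adjugate *ᵥ n) with hf
  have hfadd : ∀ n m, f (n + m) = f n + f m := by
    intro n m
    simp only [hf, Matrix.mulVec_add, smul_add]
  have hfsmul : ∀ (q : ℤ) n, f (q • n) = q • f n := by
    intro q n
    simp only [hf, Matrix.mulVec_smul]
    rw [smul_comm]
  have hD : ∀ n i, (A.det : ℝ) * (L *ᵥ ic n) i = (f n i : ℝ) := by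
    intro n i
    have h1 : (L * A.map (Int.cast : ℤ → ℝ)) * (A.adjugate).map (Int.cast : ℤ → ℝ)
        = (A.det : ℝ) • L := by
      rw [Matrix.mul_assoc]
      have h2 : A.map (Int.cast : ℤ → ℝ) * (A.adjugate).map (Int.cast : ℤ → ℝ)
          = (A.det : ℝ) • (1 : Matrix (Fin d) (Fin d) ℝ) := by
        have h3 := congrArg (fun M : Matrix (Fin d) (Fin d) ℤ => M.map (Int.castRingHom ℝ))
          (Matrix.mul_adjugate A)
        simp only [Matrix.map_mul] at h3
        ext a b
        have h4 := congrFun (congrFun h3 a) b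
        simp only [Int.coe_castRingHom] at h4
        rw [h4, Matrix.map_apply, Matrix.smul_apply, Matrix.smul_apply, Matrix.one_apply,
          Matrix.one_apply]
        split_ifs <;> simp
      rw [h2, Matrix.mul_smul, Matrix.mul_one]
    rw [hLA] at h1
    have h5 : (A.det : ℝ) • (L *ᵥ ic n) = ic (f n) := by
      rw [← Matrix.smul_mulVec, ← h1]
      funext i
      have e : ic (f n) = (N : ℝ) • ic (A.adjugate *ᵥ n) := by
        funext i
        simp [ic, hf]
      rw [e, ic_mulVec, ← Matrix.mulVec_mulVec, Matrix.smul_mulVec, Matrix.one_mulVec]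
    have := congrFun h5 i
    simpa [ic] using this
  have hinj : ∀ n, (∀ i, f n i = 0) → n = 0 := by
    intro n hn
    have h1 : L *ᵥ ic n = 0 := by
      funext i
      have h2 := hD n i
      rw [hn i] at h2
      have h3 : (A.det : ℝ) ≠ 0 := by exact_mod_cast hdetA
      have h4 : (A.det : ℝ) * (L *ᵥ ic n) i = 0 := by
        rw [h2]; simp
      exact (mul_eq_zero.mp h4).resolve_left h3
    have h2 : ic n = 0 := Matrix.eq_zero_of_mulVec_eq_zero hL h1
    funext i
    have := congrFun h2 i
    simpa [ic] using this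
  -- cyclic subgroups
  have hgen : ∀ j : Fin d, ∃ (g : ℤ) (u : Fin d → ℤ), f u j = g ∧ (∀ i, j < i → f u i = 0) ∧
      ∀ n : Fin d → ℤ, (∀ i, j < i → f n i = 0) → ∃ q : ℤ, f n j = q * g := by
    intro j
    let H : AddSubgroup ℤ :=
      { carrier := {z | ∃ n : Fin d → ℤ, (∀ i, j < i → f n i = 0) ∧ f n j = z}
        zero_mem' := by
          refine ⟨0, ?_, ?_⟩
          · intro i _
            simp [hf]
          · simp [hf]
        add_mem' := by
          rintro a b ⟨n, hn, hna⟩ ⟨m, hm, hmb⟩
          refine ⟨n + m, ?_, ?_⟩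
          · intro i hi
            rw [hfadd, Pi.add_apply, hn i hi, hm i hi, add_zero]
          · rw [hfadd, Pi.add_apply, hna, hmb]
        neg_mem' := by
          rintro a ⟨n, hn, hna⟩
          refine ⟨(-1 : ℤ) • n, ?_, ?_⟩
          · intro i hi
            rw [hfsmul, Pi.smul_apply, hn i hi, smul_zero]
          · rw [hfsmul, Pi.smul_apply, hna]
            simp }
    obtain ⟨g, hg⟩ := Int.subgroup_cyclic H
    have hgm : g ∈ H := by
      rw [hg]
      exact AddSubgroup.subset_closure (Set.mem_singleton g)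
    obtain ⟨u, hu1, hu2⟩ := hgm
    refine ⟨g, u, hu2, hu1, ?_⟩
    intro n hn
    have : f n j ∈ H := ⟨n, hn, rfl⟩
    rw [hg, AddSubgroup.mem_closure_singleton] at this
    obtain ⟨q, hq⟩ := this
    exact ⟨q, by rw [← hq]; simp⟩
  choose g u hgu hui hgen using hgen
  set U : Matrix (Fin d) (Fin d) ℤ := Matrix.of (fun i j => u j i) with hU
  have hUcol : ∀ j, U *ᵥ (Pi.single j 1) = u j := by
    intro j
    funext i
    simp [hU]
  have hspan : ∀ (m : ℕ) (n : Fin d → ℤ), (∀ i : Fin d, m ≤ (i : ℕ) → f n i = 0) →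
      ∃ v, U *ᵥ v = n := by
    intro m
    induction m with
    | zero =>
      intro n hn
      have : n = 0 := hinj n (fun i => hn i (Nat.zero_le _))
      exact ⟨0, by rw [this]; simp⟩
    | succ m ih =>
      intro n hn
      by_cases hm : m < d
      · set j : Fin d := ⟨m, hm⟩ with hj
        obtain ⟨q, hq⟩ := hgen j n (fun i hi => hn i (by
          have : (j : ℕ) < i := hi
          simp only [hj] at this
          omega))
        obtain ⟨v, hv⟩ := ih (n + (-q) • u j) (by
          intro i hi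
          rw [hfadd, hfsmul, Pi.add_apply, Pi.smul_apply]
          rcases Nat.lt_or_ge m (i : ℕ) with h | h
          · rw [hn i h, hui j i (by
              show (j : ℕ) < i
              simpa [hj] using h)]
            simp
          · have : i = j := by
              apply Fin.ext
              simp only [hj]
              omega
            rw [this, hq, hgu j]
            simp)
        refine ⟨v + q • Pi.single j 1, ?_⟩
        rw [Matrix.mulVec_add, Matrix.mulVec_smul, hUcol, hv]
        simp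
      · apply ih n
        intro i hi
        exfalso
        have := i.isLt
        omega
  have hV : ∀ k : Fin d, ∃ v, U *ᵥ v = Pi.single k (1:ℤ) := by
    intro k
    apply hspan d
    intro i hi
    exfalso
    have := i.isLt
    omega
  choose V hV using hV
  have hUV : U * Matrix.of (fun i k => V k i) = 1 := by
    ext i k
    have h1 := congrFun (hV k) i
    rw [Matrix.mul_apply]
    simp only [Matrix.mulVec, dotProduct] at h1
    simp only [Matrix.of_apply]
    rw [h1, Matrix.one_apply, Pi.single_apply]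
  refine ⟨U, Matrix.isUnit_det_of_right_inverse hUV, ?_⟩
  intro i j hij
  have h1 := hD (u j) i
  rw [hui j i hij] at h1
  have h3 : (A.det : ℝ) ≠ 0 := by exact_mod_cast hdetA
  have h4 : (L *ᵥ ic (u j)) i = 0 := by
    have h5 : (A.det : ℝ) * (L *ᵥ ic (u j)) i = 0 := by
      rw [h1]; simp
    exact (mul_eq_zero.mp h5).resolve_left h3
  rw [Matrix.mul_apply]
  simp only [Matrix.mulVec, dotProduct, ic] at h4
  simpa [hU] using h4

/-- The case of a lattice commensurable with the standard one. -/
theorem rational_case {d : ℕ} (L : Matrix (Fin d) (Fin d) ℝ) (c : Fin d → ℝ)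
    (A : Matrix (Fin d) (Fin d) ℤ) (N : ℤ) (hN : N ≠ 0)
    (hLA : L * A.map (Int.cast : ℤ → ℝ) = (N : ℝ) • (1 : Matrix (Fin d) (Fin d) ℝ))
    (h : IsEqualityCase L c) : Diagonalisable L c := by
  classical
  obtain ⟨hL, hprod⟩ := h
  obtain ⟨U, hUdet, hUt⟩ := triangularize L hL A N hN hLA
  set T : Matrix (Fin d) (Fin d) ℝ := L * U.map (Int.cast : ℤ → ℝ) with hT
  have hcastdet : ∀ M : Matrix (Fin d) (Fin d) ℤ,
      (M.map (Int.cast : ℤ → ℝ)).det = ((M.det : ℤ) : ℝ) := by
    intro M
    have := RingHom.map_det (Int.castRingHom ℝ) M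
    simpa using this.symm
  have hTdet : T.det = L.det * (U.det : ℝ) := by
    rw [hT, Matrix.det_mul, hcastdet]
  have hUabs : |(U.det : ℝ)| = 1 := by
    rcases Int.isUnit_iff.mp hUdet with h | h
    · rw [h]; simp
    · rw [h]; simp
  have hTabs : |T.det| = |L.det| := by
    rw [hTdet, abs_mul, hUabs, mul_one]
  have hTne : T.det ≠ 0 := by
    intro h0
    rw [h0, abs_zero] at hTabs
    exact hL (abs_eq_zero.mp hTabs.symm)
  have hTdiag : T.det = ∏ k, T k k :=
    Matrix.det_of_isUpperTriangular (by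
      intro i j hij
      exact hUt i j hij)
  have hdne : ∀ k, T k k ≠ 0 := by
    intro k hk
    apply hTne
    rw [hTdiag]
    exact Finset.prod_eq_zero (Finset.mem_univ k) hk
  have hTmul : ∀ n : Fin d → ℤ, T *ᵥ ic n = L *ᵥ ic (U *ᵥ n) := by
    intro n
    rw [hT, ic_mulVec, Matrix.mulVec_mulVec]
  obtain ⟨⟨m, hm⟩, hu⟩ := tri_case d T c hUt hdne (by
    intro n
    have h1 := hprod (U *ᵥ n)
    rw [Finset.abs_prod] at h1
    have e1 : (∏ k, |T k k| / 2) = |L.det| / 2 ^ d := by
      rw [Finset.prod_div_distrib, ← Finset.abs_prod, ← hTdiag, hTabs]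
      simp
    rw [e1, hTmul]
    exact h1)
  choose u hu using hu
  set W : Matrix (Fin d) (Fin d) ℤ := Matrix.of (fun i k => u k i) with hW
  have hTW : T * W.map (Int.cast : ℤ → ℝ) = Matrix.diagonal (fun k => T k k) := by
    ext i k
    have h1 := hu k i
    rw [Matrix.mul_apply, Matrix.diagonal_apply]
    simp only [Matrix.mulVec, dotProduct, ic] at h1
    simp only [hW, Matrix.map_apply, Matrix.of_apply]
    rw [h1]
    by_cases hik : i = k
    · subst hik; simp
    · simp [hik]
  have hWdet : W.det = 1 := by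
    have h1 := congrArg Matrix.det hTW
    rw [Matrix.det_mul, Matrix.det_diagonal, ← hTdiag, hcastdet] at h1
    have h2 : (W.det : ℝ) = 1 := by
      have h3 : T.det * (W.det : ℝ) = T.det * 1 := by rw [h1, mul_one]
      exact mul_left_cancel₀ hTne h3
    exact_mod_cast h2
  refine ⟨U * W, U *ᵥ m, ?_, ?_⟩
  · rw [Matrix.det_mul, hWdet, mul_one]
    exact hUdet
  · intro k x
    have e1 : (U * W).map (Int.cast : ℤ → ℝ) = U.map (Int.cast : ℤ → ℝ) * W.map (Int.cast : ℤ → ℝ) := by
      ext a b
      simp [Matrix.mul_apply]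
    have e2 : L *ᵥ ((U * W).map (Int.cast : ℤ → ℝ) *ᵥ x) = Matrix.diagonal (fun k => T k k) *ᵥ x := by
      rw [e1, ← hTW, hT, Matrix.mulVec_mulVec, Matrix.mul_assoc]
    rw [e2, Matrix.mulVec_diagonal]
    have e3 := hm k
    rw [hTmul] at e3
    have e4 : (L *ᵥ fun j => ((U *ᵥ m) j : ℝ)) k = (L *ᵥ ic (U *ᵥ m)) k := rfl
    rw [e4]
    have : T k k = 2 * (c k + (L *ᵥ ic (U *ᵥ m)) k) := by linarith
    rw [← this]

end Pool.Agent.Helper5.MinkEq
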