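import Mathlib
import Pool.Agent.Helper5.MinkEq.Defs
import Pool.Agent.Helper5.MinkEq.Tri
import Pool.Agent.Helper5.MinkEq.Rat

namespace Pool.Agent.Helper5.MinkEq

open Matrix Finset Filter

/-- The equality case of the inequality of arithmetic and geometric means, for a power. -/
lemma amgm_eq {d : ℕ} (p : ℝ) (hp : 0 < p) (t : Fin d → ℝ) (hprod : 1 ≤ ∏ k, |t k|)
    (hsum : ∑ k, |t k| ^ p ≤ d) : ∀ k, |t k| = 1 := by
  have hne : ∀ k, 0 < |t k| := by
    intro k
    rcases (abs_nonneg (t k)).lt_or_eq with h | h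
    · exact h
    · exfalso
      have : ∏ k, |t k| = 0 := Finset.prod_eq_zero (Finset.mem_univ k) h.symm
      linarith
  have hlog : 0 ≤ ∑ k, Real.log (|t k| ^ p) := by
    have h1 : ∑ k, Real.log (|t k| ^ p) = p * Real.log (∏ k, |t k|) := by
      rw [Real.log_prod (fun k _ => (hne k).ne'), Finset.mul_sum]
      apply Finset.sum_congr rfl
      intro k _
      rw [Real.log_rpow (hne k)]
    rw [h1]
    exact mul_nonneg hp.le (Real.log_nonneg hprod)
  intro k
  by_contra hk
  have hpw : |t k| ^ p ≠ 1 := by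
    intro h
    apply hk
    have h2 := congrArg Real.log h
    rw [Real.log_rpow (hne k), Real.log_one] at h2
    have h3 : Real.log |t k| = 0 := (mul_eq_zero.mp h2).resolve_left hp.ne'
    exact Real.eq_one_of_pos_of_log_eq_zero (hne k) h3
  have hlt : ∑ k, Real.log (|t k| ^ p) < ∑ k, (|t k| ^ p - 1) := by
    apply Finset.sum_lt_sum
    · intro i _
      exact Real.log_le_sub_one_of_pos (Real.rpow_pos_of_pos (hne i) p)
    · exact ⟨k, Finset.mem_univ k,
        Real.log_lt_sub_one_of_pos (Real.rpow_pos_of_pos (hne k) p) hpw⟩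
  rw [Finset.sum_sub_distrib] at hlt
  simp only [Finset.sum_const, Finset.card_univ, Fintype.card_fin, nsmul_eq_mul, mul_one] at hlt
  linarith

/-- Strict Bernoulli inequality for `|1 + s|`. -/
lemma bern {s p : ℝ} (hp : 1 < p) (hs : s ≠ 0) : 1 + p * s < |1 + s| ^ p := by
  rcases le_or_gt (-1) s with h | h
  · rw [abs_of_nonneg (by linarith)]
    exact one_add_mul_self_lt_rpow_one_add h hs hp
  · have h1 : 1 + p * s < 0 := by nlinarith
    exact h1.trans_le (Real.rpow_nonneg (abs_nonneg _) _)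

lemma bern' {s p : ℝ} (hp : 1 < p) : 1 + p * s ≤ |1 + s| ^ p := by
  rcases eq_or_ne s 0 with h | h
  · rw [h]; simp
  · exact (bern hp h).le

/-- In every direction there is a point of the grid with all coordinates `± 1/2`. -/
theorem direction {d : ℕ} (L : Matrix (Fin d) (Fin d) ℝ) (c : Fin d → ℝ) (p : ℝ) (hp : 1 < p)
    (hL : L.det ≠ 0)
    (hprod : ∀ n : Fin d → ℤ, 1 ≤ ∏ k, |2 * ((L *ᵥ ic n) k + c k)|)
    (hcov : ∀ y : Fin d → ℝ, ∃ n : Fin d → ℤ, ∑ k, |2 * ((L *ᵥ ic n) k + y k)| ^ p ≤ d)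
    (u : Fin d → ℝ) (hu : u ≠ 0) :
    ∃ n : Fin d → ℤ, (∀ k, |2 * ((L *ᵥ ic n) k + c k)| = 1) ∧
      0 < ∑ k, ((L *ᵥ ic n) k + c k) * u k := by
  have hp0 : 0 < p := by linarith
  set e : ℕ → ℝ := fun i => 1 / ((i : ℝ) + 1) with he
  have hepos : ∀ i, 0 < e i := by
    intro i
    simp only [he]
    positivity
  have hele : ∀ i, e i ≤ 1 := by
    intro i
    simp only [he]
    rw [div_le_one (by positivity)]
    have : (0:ℝ) ≤ i := Nat.cast_nonneg i
    linarith
  have hex : ∀ i : ℕ, ∃ n : Fin d → ℤ,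
      ∑ k, |2 * ((L *ᵥ ic n) k + (c k - e i * u k))| ^ p ≤ d :=
    fun i => hcov (fun k => c k - e i * u k)
  choose N hN using hex
  -- the vectors N i lie in a finite set
  have hbd : ∀ i k, |(L *ᵥ ic (N i)) k + c k| ≤ (d : ℝ) + 1 + |u k| := by
    intro i k
    have h1 : |2 * ((L *ᵥ ic (N i)) k + (c k - e i * u k))| ^ p ≤ d :=
      (Finset.single_le_sum (f := fun k => |2 * ((L *ᵥ ic (N i)) k + (c k - e i * u k))| ^ p)
        (fun j _ => Real.rpow_nonneg (abs_nonneg _) _) (Finset.mem_univ k)).trans (hN i)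
    have h2 : |2 * ((L *ᵥ ic (N i)) k + (c k - e i * u k))| ≤ (d : ℝ) + 1 := by
      rcases le_or_gt |2 * ((L *ᵥ ic (N i)) k + (c k - e i * u k))| 1 with h | h
      · have : (0:ℝ) ≤ d := Nat.cast_nonneg d
        linarith
      · have := Real.self_le_rpow_of_one_le h.le hp.le
        linarith
    have h3 : (L *ᵥ ic (N i)) k + c k =
        (2 * ((L *ᵥ ic (N i)) k + (c k - e i * u k))) / 2 + e i * u k := by ring
    rw [h3]
    refine (abs_add_le _ _).trans ?_
    rw [abs_div, abs_of_pos (by norm_num : (0:ℝ) < 2), abs_mul (e i), abs_of_pos (hepos i)]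
    have h4 : e i * |u k| ≤ 1 * |u k| := mul_le_mul_of_nonneg_right (hele i) (abs_nonneg _)
    have h5 := abs_nonneg (2 * ((L *ᵥ ic (N i)) k + (c k - e i * u k)))
    linarith
  set R : Fin d → ℝ := fun j => ∑ k, |L⁻¹ j k| * ((d : ℝ) + 1 + |u k| + |c k|) with hR
  have hNbd : ∀ i j, |((N i j : ℤ) : ℝ)| ≤ R j := by
    intro i j
    have h1 : ic (N i) = L⁻¹ *ᵥ (L *ᵥ ic (N i)) := by
      rw [Matrix.mulVec_mulVec, Matrix.nonsing_inv_mul _ (isUnit_iff_ne_zero.mpr hL),
        Matrix.one_mulVec]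
    have h2 : ((N i j : ℤ) : ℝ) = ∑ k, L⁻¹ j k * (L *ᵥ ic (N i)) k := by
      have := congrFun h1 j
      simpa [ic, Matrix.mulVec, dotProduct] using this
    rw [h2]
    refine (Finset.abs_sum_le_sum_abs _ _).trans ?_
    apply Finset.sum_le_sum
    intro k _
    rw [abs_mul]
    apply mul_le_mul_of_nonneg_left _ (abs_nonneg _)
    have h3 := hbd i k
    have h4 : (L *ᵥ ic (N i)) k = ((L *ᵥ ic (N i)) k + c k) - c k := by ring
    rw [h4]
    refine (abs_sub _ _).trans ?_
    linarith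
  set S : Set (Fin d → ℤ) := Set.Icc (fun j => - ⌈R j⌉) (fun j => ⌈R j⌉) with hS
  have hSfin : S.Finite := Set.finite_Icc _ _
  have hmem : ∀ i, N i ∈ S := by
    intro i
    constructor
    · intro j
      have h1 := (abs_le.mp (hNbd i j)).1
      have h2 : (-(⌈R j⌉ : ℤ) : ℝ) ≤ (N i j : ℝ) := by
        have := Int.le_ceil (R j)
        linarith
      exact_mod_cast h2
    · intro j
      have h1 := (abs_le.mp (hNbd i j)).2
      have h2 : ((N i j : ℤ) : ℝ) ≤ (⌈R j⌉ : ℝ) := by
        have := Int.le_ceil (R j)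
        linarith
      exact_mod_cast h2
  haveI : Finite S := hSfin
  obtain ⟨⟨n, hnS⟩, hinf⟩ := Finite.exists_infinite_fiber (fun i : ℕ => (⟨N i, hmem i⟩ : S))
  have hfreq : ∃ᶠ i in (atTop : Filter ℕ),
      ∑ k, |2 * ((L *ᵥ ic n) k + (c k - e i * u k))| ^ p ≤ d := by
    have h1 : ∃ᶠ i in (atTop : Filter ℕ), (⟨N i, hmem i⟩ : S) = ⟨n, hnS⟩ := by
      rw [Nat.frequently_atTop_iff_infinite]
      exact Set.infinite_coe_iff.mp hinf
    apply h1.mono
    intro i hi
    have h2 : N i = n := congrArg Subtype.val hi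
    have h3 := hN i
    rw [h2] at h3
    exact h3
  have htend : Tendsto (fun i : ℕ => ∑ k, |2 * ((L *ᵥ ic n) k + (c k - e i * u k))| ^ p) atTop
      (nhds (∑ k, |2 * ((L *ᵥ ic n) k + c k)| ^ p)) := by
    apply tendsto_finsetSum
    intro k _
    have he0 : Tendsto e atTop (nhds 0) := tendsto_one_div_add_atTop_nhds_zero_nat
    have h1 : Tendsto (fun i => |2 * ((L *ᵥ ic n) k + (c k - e i * u k))|) atTop
        (nhds |2 * ((L *ᵥ ic n) k + (c k - 0 * u k))|) :=
      (((he0.mul_const (u k)).const_sub (c k)).const_add _ |>.const_mul 2).abs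
    simp only [zero_mul, sub_zero] at h1
    exact h1.rpow_const (Or.inr hp0.le)
  have hlim : ∑ k, |2 * ((L *ᵥ ic n) k + c k)| ^ p ≤ d := by
    by_contra hcon
    push Not at hcon
    have := htend.eventually (lt_mem_nhds hcon)
    obtain ⟨i, hi1, hi2⟩ := (hfreq.and_eventually this).exists
    linarith
  have hone := amgm_eq p hp0 (fun k => 2 * ((L *ᵥ ic n) k + c k)) (hprod n) hlim
  refine ⟨n, hone, ?_⟩
  obtain ⟨i, hi⟩ := hfreq.exists
  -- strict inequality
  set s : Fin d → ℝ := fun k => - (4 * e i * (((L *ᵥ ic n) k + c k) * u k)) with hs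
  have hterm : ∀ k, |2 * ((L *ᵥ ic n) k + (c k - e i * u k))| = |1 + s k| := by
    intro k
    set z := (L *ᵥ ic n) k + c k with hz
    have h1 : |2 * z| = 1 := hone k
    have h2 : (2 * z) * (2 * z) = 1 := by
      rw [← abs_mul_abs_self (2 * z), h1]
      norm_num
    have h3 : 1 + s k = (2 * z) * (2 * (z - e i * u k)) := by
      simp only [hs]
      linear_combination (-1) * h2
    have h4 : |2 * z * (2 * (z - e i * u k))| = |2 * (z - e i * u k)| := by
      rw [abs_mul, h1, one_mul]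
    rw [h3, h4]
    congr 1
    rw [hz]
    ring
  have hsum : ∑ k, (1 + p * s k) < d := by
    refine lt_of_lt_of_le ?_ hi
    apply Finset.sum_lt_sum
    · intro k _
      rw [hterm k]
      exact bern' hp
    · obtain ⟨k, hk⟩ := Function.ne_iff.mp hu
      refine ⟨k, Finset.mem_univ k, ?_⟩
      rw [hterm k]
      apply bern hp
      have hz0 : (L *ᵥ ic n) k + c k ≠ 0 := by
        intro h0
        have h1 : |2 * ((L *ᵥ ic n) k + c k)| = 1 := hone k
        rw [h0] at h1
        simp at h1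
      simp only [hs]
      have := hepos i
      have hk' : u k ≠ 0 := hk
      have : 4 * e i * (((L *ᵥ ic n) k + c k) * u k) ≠ 0 :=
        mul_ne_zero (mul_ne_zero (by norm_num) (hepos i).ne') (mul_ne_zero hz0 hk')
      exact neg_ne_zero.mpr this
  rw [Finset.sum_add_distrib, ← Finset.mul_sum] at hsum
  simp only [Finset.sum_const, Finset.card_univ, Fintype.card_fin, nsmul_eq_mul, mul_one] at hsum
  have h5 : ∑ k, s k = - (4 * e i * ∑ k, ((L *ᵥ ic n) k + c k) * u k) := by
    simp only [hs, Finset.sum_neg_distrib, Finset.mul_sum]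
  rw [h5] at hsum
  have h6 : 0 < p * (4 * e i * ∑ k, ((L *ᵥ ic n) k + c k) * u k) := by
    have : p * -(4 * e i * ∑ k, ((L *ᵥ ic n) k + c k) * u k) =
      - (p * (4 * e i * ∑ k, ((L *ᵥ ic n) k + c k) * u k)) := by ring
    rw [this] at hsum
    linarith
  have h7 := (mul_pos_iff_of_pos_left hp0).mp h6
  have h8 : 0 < 4 * e i := by have := hepos i; positivity
  exact (mul_pos_iff_of_pos_left h8).mp h7

end Pool.Agent.Helper5.MinkEq
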