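import Mathlib
import Pool.Agent.Helper5.MinkEq.Defs
import Pool.Agent.Helper5.MinkEq.Tri

namespace Pool.Agent.Helper5.MinkEq

open Matrix Finset

/-- First order expansion of a product. -/
lemma prod_one_add_bound {ι : Type*} (s : Finset ι) :
    ∃ C : ℝ, 0 ≤ C ∧ ∀ (x : ι → ℝ) (p : ℝ), 0 ≤ p → p ≤ 1 → (∀ i, |x i| ≤ p) →
      |∏ i ∈ s, (1 + x i) - 1 - ∑ i ∈ s, x i| ≤ C * p ^ 2 := by
  classical
  induction s using Finset.induction_on with
  | empty => exact ⟨0, le_refl _, fun x p _ _ _ => by simp⟩
  | insert a s ha ih =>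
    obtain ⟨C, hC, h⟩ := ih
    refine ⟨2 * C + s.card, by positivity, ?_⟩
    intro x p hp hp1 hx
    have h1 := h x p hp hp1 hx
    rw [Finset.prod_insert ha, Finset.sum_insert ha]
    set A := ∏ i ∈ s, (1 + x i) with hA
    set S := ∑ i ∈ s, x i with hS
    have hSb : |S| ≤ s.card * p := by
      refine (Finset.abs_sum_le_sum_abs _ _).trans ?_
      refine (Finset.sum_le_sum (fun i _ => hx i)).trans ?_
      simp
    have e : (1 + x a) * A - 1 - (x a + S) = (A - 1 - S) + x a * ((A - 1 - S) + S) := by ring
    rw [e]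
    refine (abs_add_le _ _).trans ?_
    rw [abs_mul]
    have h2 : |A - 1 - S + S| ≤ C * p ^ 2 + s.card * p :=
      (abs_add_le _ _).trans (add_le_add h1 hSb)
    have h3 : |x a| * |A - 1 - S + S| ≤ p * (C * p ^ 2 + s.card * p) :=
      mul_le_mul (hx a) h2 (abs_nonneg _) hp
    have h4 : p * (C * p ^ 2) ≤ C * p ^ 2 := by
      have h5 : 0 ≤ C * p ^ 2 := by positivity
      nlinarith
    nlinarith [h1, h3, h4]

/-- First order expansion of a determinant. -/
lemma det_one_add_bound (d : ℕ) :
    ∃ C : ℝ, 0 ≤ C ∧ ∀ (P : Matrix (Fin d) (Fin d) ℝ) (p : ℝ), 0 ≤ p → p ≤ 1 →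
      (∀ i j, |P i j| ≤ p) → |(1 + P).det - 1 - P.trace| ≤ C * p ^ 2 := by
  classical
  obtain ⟨C0, hC0, h0⟩ := prod_one_add_bound (Finset.univ : Finset (Fin d))
  refine ⟨C0 + (Fintype.card (Equiv.Perm (Fin d))) * 2 ^ d, by positivity, ?_⟩
  intro P p hp hp1 hP
  rw [Matrix.det_apply, ← Finset.add_sum_erase _ _ (Finset.mem_univ (1 : Equiv.Perm (Fin d)))]
  have e1 : (Equiv.Perm.sign (1 : Equiv.Perm (Fin d))) • ∏ i, (1 + P) ((1 : Equiv.Perm (Fin d)) i) i
      = ∏ i, (1 + P i i) := by
    simp
  rw [e1]
  have h1 := h0 (fun i => P i i) p hp hp1 (fun i => hP i i)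
  have h2 : |∑ σ ∈ (Finset.univ : Finset (Equiv.Perm (Fin d))).erase 1,
      Equiv.Perm.sign σ • ∏ i, (1 + P) (σ i) i| ≤
      (Fintype.card (Equiv.Perm (Fin d))) * (2 ^ d * p ^ 2) := by
    refine (Finset.abs_sum_le_sum_abs _ _).trans ?_
    have h3 : ∀ σ ∈ (Finset.univ : Finset (Equiv.Perm (Fin d))).erase 1,
        |Equiv.Perm.sign σ • ∏ i, (1 + P) (σ i) i| ≤ 2 ^ d * p ^ 2 := by
      intro σ hσ
      have hσ1 : σ ≠ 1 := Finset.ne_of_mem_erase hσ
      have hs : |Equiv.Perm.sign σ • ∏ i, (1 + P) (σ i) i| = ∏ i, |(1 + P) (σ i) i| := by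
        rw [← Finset.abs_prod]
        rcases Int.units_eq_one_or (Equiv.Perm.sign σ) with h | h
        · rw [h, one_smul]
        · rw [h]
          simp
      rw [hs]
      obtain ⟨a, ha⟩ : ∃ a, σ a ≠ a := by
        by_contra hcon
        push Not at hcon
        exact hσ1 (Equiv.ext hcon)
      have hb : σ (σ a) ≠ σ a := fun h => ha (σ.injective h)
      have hab : σ a ≠ a := ha
      have hall : ∀ i, |(1 + P) (σ i) i| ≤ 2 := by
        intro i
        rw [Matrix.add_apply, Matrix.one_apply]
        refine (abs_add_le _ _).trans ?_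
        have := hP (σ i) i
        split_ifs <;> simp <;> linarith
      have hoff : ∀ i, σ i ≠ i → |(1 + P) (σ i) i| ≤ p := by
        intro i hi
        rw [Matrix.add_apply, Matrix.one_apply, if_neg hi, zero_add]
        exact hP _ _
      have hamem : a ∈ (Finset.univ : Finset (Fin d)) := Finset.mem_univ a
      rw [← Finset.mul_prod_erase _ _ hamem]
      have hbmem : σ a ∈ (Finset.univ : Finset (Fin d)).erase a := by
        simp [hab]
      rw [← Finset.mul_prod_erase _ _ hbmem]
      have hrest : ∏ i ∈ ((Finset.univ : Finset (Fin d)).erase a).erase (σ a), |(1 + P) (σ i) i|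
          ≤ 2 ^ d := by
        refine (Finset.prod_le_prod (fun i _ => abs_nonneg _) (fun i _ => hall i)).trans ?_
        rw [Finset.prod_const]
        apply pow_le_pow_right₀ (by norm_num)
        refine (Finset.card_le_univ _).trans ?_
        simp
      have h5 : 0 ≤ ∏ i ∈ ((Finset.univ : Finset (Fin d)).erase a).erase (σ a),
          |(1 + P) (σ i) i| := Finset.prod_nonneg (fun i _ => abs_nonneg _)
      calc |(1 + P) (σ a) a| * (|(1 + P) (σ (σ a)) (σ a)| *
            ∏ i ∈ ((Finset.univ : Finset (Fin d)).erase a).erase (σ a), |(1 + P) (σ i) i|)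
          ≤ p * (p * 2 ^ d) := by
            apply mul_le_mul (hoff a ha) _ (by positivity) hp
            exact mul_le_mul (hoff _ hb) hrest h5 hp
        _ = 2 ^ d * p ^ 2 := by ring
    refine (Finset.sum_le_sum h3).trans ?_
    rw [Finset.sum_const, nsmul_eq_mul]
    apply mul_le_mul_of_nonneg_right _ (by positivity)
    have : ((Finset.univ : Finset (Equiv.Perm (Fin d))).erase 1).card ≤
        Fintype.card (Equiv.Perm (Fin d)) := Finset.card_le_univ _
    exact_mod_cast this
  have e2 : P.trace = ∑ i, P i i := rfl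
  rw [e2]
  set S := ∑ σ ∈ (Finset.univ : Finset (Equiv.Perm (Fin d))).erase 1,
      Equiv.Perm.sign σ • ∏ i, (1 + P) (σ i) i with hS
  have e3 : ∏ i, (1 + P i i) + S - 1 - ∑ i, P i i = (∏ i, (1 + P i i) - 1 - ∑ i, P i i) + S := by
    ring
  rw [e3]
  refine (abs_add_le _ _).trans ?_
  have := add_le_add h1 h2
  refine this.trans (le_of_eq ?_)
  ring

/-- the sign of a boolean -/
def sg (b : Bool) : ℝ := if b then 1 else -1

lemma sg_mul_self (b : Bool) : sg b * sg b = 1 := by
  cases b <;> simp [sg]

lemma abs_sg (b : Bool) : |sg b| = 1 := by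
  cases b <;> simp [sg]

lemma sg_not (b : Bool) : sg (!b) = - sg b := by
  cases b <;> simp [sg]

/-- change one sign -/
def flip {d : ℕ} (k : Fin d) : Equiv.Perm (Fin d → Bool) :=
  Function.Involutive.toPerm (fun s => Function.update s k (!s k)) (by
    intro s
    funext j
    by_cases h : j = k
    · subst h; simp
    · simp [h])

lemma flip_apply {d : ℕ} (k : Fin d) (s : Fin d → Bool) :
    flip k s = Function.update s k (!s k) := rfl

lemma flip_self {d : ℕ} (k : Fin d) (s : Fin d → Bool) : sg (flip k s k) = - sg (s k) := by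
  rw [flip_apply, Function.update_self, sg_not]

lemma flip_ne {d : ℕ} {k j : Fin d} (h : j ≠ k) (s : Fin d → Bool) : flip k s j = s j := by
  rw [flip_apply, Function.update_of_ne h]

lemma sum_odd {d : ℕ} (k : Fin d) (F : (Fin d → Bool) → ℝ) (hF : ∀ s, F (flip k s) = - F s) :
    ∑ s, F s = 0 := by
  have h1 : ∑ s, F (flip k s) = ∑ s, F s := Equiv.sum_comp (flip k) F
  simp only [hF, Finset.sum_neg_distrib] at h1
  linarith

/-- the perturbation of the `k`-th form at a vertex -/
def eta {d : ℕ} (E : Matrix (Fin d) (Fin d) ℝ) (g : Fin d → ℝ) (k : Fin d) (s : Fin d → Bool) : ℝ :=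
  sg (s k) * (∑ j, E k j * sg (s j) + g k)

lemma eta_flip {d : ℕ} {E : Matrix (Fin d) (Fin d) ℝ} (hE : ∀ k, E k k = 0) (g : Fin d → ℝ)
    (k : Fin d) (s : Fin d → Bool) : eta E g k (flip k s) = - eta E g k s := by
  unfold eta
  rw [flip_self]
  have : ∑ j, E k j * sg (flip k s j) = ∑ j, E k j * sg (s j) := by
    apply Finset.sum_congr rfl
    intro j _
    by_cases h : j = k
    · subst h; rw [hE]; simp
    · rw [flip_ne h]
  rw [this]
  ring

/-- Local uniqueness, normalised form. -/
theorem iso_norm (d : ℕ) : ∃ ε : ℝ, 0 < ε ∧ ∀ (E : Matrix (Fin d) (Fin d) ℝ) (g : Fin d → ℝ),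
    (∀ k, E k k = 0) → (∀ k j, |E k j| ≤ ε) → (∀ k, |g k| ≤ ε) →
    (∀ s : Fin d → Bool, |(1 + E).det| ≤ ∏ k, |1 + eta E g k s|) → E = 0 ∧ g = 0 := by
  classical
  obtain ⟨C, hC, hdet⟩ := det_one_add_bound d
  -- constants
  set M : ℝ := 2 ^ d * (2 * C) with hM
  set R : ℝ := M + d with hR
  have hMnn : 0 ≤ M := by positivity
  have hRnn : 0 ≤ R := by positivity
  set ε : ℝ := 1 / (2 * (C + 1) * (d + 1) * (R + 1) ^ 2 * 2) with hε
  have hεpos : 0 < ε := by positivity
  have hε1 : ε * (4 * (C + 1) * (d + 1) * (R + 1) ^ 2) = 1 := by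
    rw [hε]
    field_simp
    ring
  have hεle : ε ≤ 1 := by
    by_contra hcon
    push Not at hcon
    have h1 : 1 ≤ (C + 1) := by linarith
    have h2 : (1:ℝ) ≤ (d : ℝ) + 1 := by
      have : (0:ℝ) ≤ d := Nat.cast_nonneg d
      linarith
    have h3 : 1 ≤ (R + 1) ^ 2 := by nlinarith
    have h4 : 1 ≤ (C + 1) * (d + 1) := by nlinarith
    have h5 : 1 ≤ (C + 1) * (d + 1) * (R + 1) ^ 2 := by nlinarith
    nlinarith
  have hεd : ε * (d + 1) ≤ 1 / 4 := by
    have h1 : 1 ≤ (C + 1) := by linarith
    have h3 : 1 ≤ (R + 1) ^ 2 := by nlinarith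
    have h4 : 1 ≤ (C + 1) * (R + 1) ^ 2 := by nlinarith
    have h6 : 0 ≤ ε * (d + 1) := by positivity
    have h5 : ε * (d + 1) * 1 ≤ ε * (d + 1) * ((C + 1) * (R + 1) ^ 2) :=
      mul_le_mul_of_nonneg_left h4 h6
    nlinarith
  refine ⟨ε, hεpos, ?_⟩
  intro E g hE0 hEb hgb hcond
  -- sup of entries of E
  obtain ⟨e, he0, heε, heE, hemax⟩ : ∃ e : ℝ, 0 ≤ e ∧ e ≤ ε ∧ (∀ k j, |E k j| ≤ e) ∧
      (e = 0 ∨ ∃ k j, |E k j| = e) := by
    by_cases hne : (Finset.univ : Finset (Fin d × Fin d)).Nonempty
    · obtain ⟨q, -, hq⟩ := Finset.exists_max_image Finset.univ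
        (fun q : Fin d × Fin d => |E q.1 q.2|) hne
      refine ⟨|E q.1 q.2|, abs_nonneg _, hEb _ _, fun k j => hq (k, j) (Finset.mem_univ _),
        Or.inr ⟨_, _, rfl⟩⟩
    · refine ⟨0, le_refl _, hεpos.le, fun k j => ?_, Or.inl rfl⟩
      exact absurd ⟨(k, j), Finset.mem_univ _⟩ hne
  have he1 : e ≤ 1 := heε.trans hεle
  have hdpos : (0:ℝ) ≤ d := Nat.cast_nonneg d
  -- bounds for eta
  have heta : ∀ k s, |eta E g k s| ≤ 1 / 4 := by
    intro k s
    unfold eta
    rw [abs_mul, abs_sg, one_mul]
    refine (abs_add_le _ _).trans ?_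
    have h1 : |∑ j, E k j * sg (s j)| ≤ d * ε := by
      refine (Finset.abs_sum_le_sum_abs _ _).trans ?_
      have : ∀ j ∈ (Finset.univ : Finset (Fin d)), |E k j * sg (s j)| ≤ ε := by
        intro j _
        rw [abs_mul, abs_sg, mul_one]
        exact hEb k j
      refine (Finset.sum_le_sum this).trans ?_
      simp
    have := hgb k
    nlinarith
  have hpos : ∀ k s, 0 < 1 + eta E g k s := by
    intro k s
    have := (abs_le.mp (heta k s)).1
    linarith
  have hcond' : ∀ s : Fin d → Bool, |(1 + E).det| ≤ ∏ k, (1 + eta E g k s) := by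
    intro s
    refine (hcond s).trans (le_of_eq ?_)
    apply Finset.prod_congr rfl
    intro k _
    exact abs_of_pos (hpos k s)
  -- step 2: the determinant is at most one
  have hdet1 : |(1 + E).det| ≤ 1 := by
    have h1 : ∏ _s : Fin d → Bool, |(1 + E).det| ≤ ∏ s : Fin d → Bool, ∏ k, (1 + eta E g k s) :=
      Finset.prod_le_prod (fun _ _ => abs_nonneg _) (fun s _ => hcond' s)
    rw [Finset.prod_comm] at h1
    have h2 : ∀ k : Fin d, ∏ s : Fin d → Bool, (1 + eta E g k s) ≤ 1 := by
      intro k
      have hnn : 0 ≤ ∏ s : Fin d → Bool, (1 + eta E g k s) :=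
        Finset.prod_nonneg (fun s _ => (hpos k s).le)
      have h3 : (∏ s : Fin d → Bool, (1 + eta E g k s)) * (∏ s : Fin d → Bool, (1 + eta E g k s))
          ≤ 1 := by
        have h4 : ∏ s : Fin d → Bool, (1 + eta E g k (flip k s)) =
            ∏ s : Fin d → Bool, (1 + eta E g k s) :=
          Equiv.prod_comp (flip k) (fun s => 1 + eta E g k s)
        calc (∏ s : Fin d → Bool, (1 + eta E g k s)) * (∏ s : Fin d → Bool, (1 + eta E g k s))
            = (∏ s : Fin d → Bool, (1 + eta E g k s)) *
              (∏ s : Fin d → Bool, (1 + eta E g k (flip k s))) := by rw [h4]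
          _ = ∏ s : Fin d → Bool, ((1 + eta E g k s) * (1 + eta E g k (flip k s))) := by
              rw [Finset.prod_mul_distrib]
          _ ≤ ∏ _s : Fin d → Bool, (1:ℝ) := by
              apply Finset.prod_le_prod
              · intro s _
                exact mul_nonneg (hpos k s).le (hpos k _).le
              · intro s _
                rw [eta_flip hE0]
                nlinarith [sq_nonneg (eta E g k s)]
          _ = 1 := by simp
      nlinarith
    have h3 : ∏ k : Fin d, ∏ s : Fin d → Bool, (1 + eta E g k s) ≤ 1 := by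
      refine (Finset.prod_le_prod (fun k _ => Finset.prod_nonneg (fun s _ => (hpos k s).le))
        (fun k _ => h2 k)).trans ?_
      simp
    rw [Finset.prod_const] at h1
    have h4 : |(1 + E).det| ^ (Finset.univ : Finset (Fin d → Bool)).card ≤ 1 := h1.trans h3
    have h5 : (Finset.univ : Finset (Fin d → Bool)).card ≠ 0 :=
      Finset.card_ne_zero_of_mem (Finset.mem_univ (fun _ => true))
    exact (pow_le_one_iff_of_nonneg (abs_nonneg _) h5).mp h4
  -- step 1: the determinant is at least 1 - C e^2
  have htr : E.trace = 0 := by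
    simp [Matrix.trace, hE0]
  have hdetlow : 1 - C * e ^ 2 ≤ |(1 + E).det| := by
    have h1 := hdet E e he0 he1 heE
    rw [htr, sub_zero] at h1
    have h2 := (abs_le.mp h1).1
    have h3 := le_abs_self (1 + E).det
    linarith
  have hCe : C * e ^ 2 ≤ 1 / 2 := by
    have h1 : e ^ 2 ≤ e := by nlinarith
    have h2 : C * e ^ 2 ≤ C * ε := by
      apply mul_le_mul_of_nonneg_left _ hC
      linarith
    have h3 : 1 ≤ (d + 1 : ℝ) * (R + 1) ^ 2 := by
      have h4 : 1 ≤ (R + 1) ^ 2 := by nlinarith
      nlinarith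
    have h5 : 0 ≤ ε * (C + 1) := by positivity
    have h6 : ε * (C + 1) * 1 ≤ ε * (C + 1) * ((d + 1 : ℝ) * (R + 1) ^ 2) :=
      mul_le_mul_of_nonneg_left h3 h5
    nlinarith
  -- the linear form
  set ell : (Fin d → Bool) → ℝ := fun s => ∑ k, eta E g k s with hell
  have hellow : ∀ s, -(2 * C * e ^ 2) ≤ ell s := by
    intro s
    have h1 : 1 - C * e ^ 2 ≤ Real.exp (ell s) := by
      refine (hdetlow.trans (hcond' s)).trans ?_
      rw [hell, Real.exp_sum]
      apply Finset.prod_le_prod
      · intro k _
        exact (hpos k s).le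
      · intro k _
        have := Real.add_one_le_exp (eta E g k s)
        linarith
    have h2 : Real.exp (-(2 * C * e ^ 2)) ≤ 1 - C * e ^ 2 := by
      have hx0 : 0 ≤ C * e ^ 2 := by positivity
      have h3 : Real.exp (-(2 * C * e ^ 2)) * (1 + 2 * C * e ^ 2) ≤ 1 := by
        have h4 := Real.add_one_le_exp (2 * C * e ^ 2)
        have h5 : Real.exp (-(2 * C * e ^ 2)) * Real.exp (2 * C * e ^ 2) = 1 := by
          rw [← Real.exp_add]
          simp
        have h6 := mul_le_mul_of_nonneg_left h4 (Real.exp_pos (-(2 * C * e ^ 2))).le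
        rw [h5] at h6
        linarith
      have h7 : 1 ≤ (1 - C * e ^ 2) * (1 + 2 * C * e ^ 2) := by nlinarith
      have h8 : 0 < 1 + 2 * C * e ^ 2 := by nlinarith
      by_contra hcon
      push Not at hcon
      have := mul_lt_mul_of_pos_right hcon h8
      linarith
    exact (Real.exp_le_exp).mp (h2.trans h1)
  have hellsum : ∑ s, ell s = 0 := by
    simp only [hell]
    rw [Finset.sum_comm]
    apply Finset.sum_eq_zero
    intro k _
    exact sum_odd k _ (fun s => eta_flip hE0 g k s)
  have hellup : ∀ s, ell s ≤ M * e ^ 2 := by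
    intro s
    have h1 := Finset.add_sum_erase Finset.univ ell (Finset.mem_univ s)
    have h2 : -(2 ^ d * (2 * C * e ^ 2)) ≤ ∑ x ∈ (Finset.univ : Finset (Fin d → Bool)).erase s, ell x := by
      have h3 : ∑ x ∈ (Finset.univ : Finset (Fin d → Bool)).erase s, (-(2 * C * e ^ 2)) ≤
          ∑ x ∈ (Finset.univ : Finset (Fin d → Bool)).erase s, ell x :=
        Finset.sum_le_sum (fun x _ => hellow x)
      refine le_trans ?_ h3
      rw [Finset.sum_const, nsmul_eq_mul]
      have h4 : (((Finset.univ : Finset (Fin d → Bool)).erase s).card : ℝ) ≤ 2 ^ d := by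
        have h5 : ((Finset.univ : Finset (Fin d → Bool)).erase s).card ≤
          Fintype.card (Fin d → Bool) := Finset.card_le_univ _
        have h6 : Fintype.card (Fin d → Bool) = 2 ^ d := by simp
        rw [h6] at h5
        exact_mod_cast h5
      have h7 : 0 ≤ 2 * C * e ^ 2 := by positivity
      nlinarith
    rw [hellsum] at h1
    have h3 : M * e ^ 2 = 2 ^ d * (2 * C * e ^ 2) := by rw [hM]; ring
    rw [h3]
    linarith
  have hellabs : ∀ s, |ell s| ≤ M * e ^ 2 := by
    intro s
    rw [abs_le]
    refine ⟨?_, hellup s⟩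
    have h1 := hellow s
    have h2 : 2 * C * e ^ 2 ≤ M * e ^ 2 := by
      have h3 : (1:ℝ) ≤ 2 ^ d := one_le_pow₀ (by norm_num)
      have h4 : 0 ≤ 2 * C * e ^ 2 := by positivity
      have h5 : M * e ^ 2 = 2 ^ d * (2 * C * e ^ 2) := by rw [hM]; ring
      rw [h5]
      nlinarith
    linarith
  -- four point differences
  have hsym : ∀ k j, k ≠ j → |E k j + E j k| ≤ M * e ^ 2 := by
    intro k j hkj
    -- ell as a quadratic function of the sign vector
    have hq : ∀ s, ell s = (fun i => sg (s i)) ⬝ᵥ (E *ᵥ fun i => sg (s i)) +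
        g ⬝ᵥ (fun i => sg (s i)) := by
      intro s
      simp only [hell, eta, dotProduct, Matrix.mulVec]
      rw [← Finset.sum_add_distrib]
      apply Finset.sum_congr rfl
      intro i _
      ring
    set t : Fin d → ℝ := fun i => if i = k then 0 else if i = j then 0 else 1 with ht
    have hs : ∀ a b : Bool, (fun i => sg ((Function.update (Function.update (fun _ => true) k a) j b
        : Fin d → Bool) i)) = t + sg a • Pi.single k (1:ℝ) + sg b • Pi.single j (1:ℝ) := by
      intro a b
      funext i
      simp only [ht, Pi.add_apply, Pi.smul_apply, smul_eq_mul]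
      by_cases hik : i = k
      · subst hik
        rw [Function.update_of_ne hkj, Function.update_self]
        simp [Pi.single_eq_of_ne hkj]
      · by_cases hij : i = j
        · subst hij
          rw [Function.update_self]
          simp [hik]
        · rw [Function.update_of_ne hij, Function.update_of_ne hik]
          simp [hik, hij, sg]
    have hv : ∀ a b : Bool, ell (Function.update (Function.update (fun _ => true) k a) j b) =
        (t + sg a • Pi.single k (1:ℝ) + sg b • Pi.single j (1:ℝ)) ⬝ᵥ
          (E *ᵥ (t + sg a • Pi.single k (1:ℝ) + sg b • Pi.single j (1:ℝ))) +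
        g ⬝ᵥ (t + sg a • Pi.single k (1:ℝ) + sg b • Pi.single j (1:ℝ)) := by
      intro a b
      rw [hq, hs]
    have h4 : 4 * (E k j + E j k) =
        ell (Function.update (Function.update (fun _ => true) k true) j true)
        - ell (Function.update (Function.update (fun _ => true) k true) j false)
        - ell (Function.update (Function.update (fun _ => true) k false) j true)
        + ell (Function.update (Function.update (fun _ => true) k false) j false) := by
      rw [hv, hv, hv, hv]
      simp only [Matrix.mulVec_add, Matrix.mulVec_smul, dotProduct_add, add_dotProduct,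
        dotProduct_smul, smul_dotProduct, Matrix.mulVec_single_one, smul_eq_mul,
        single_one_dotProduct, Matrix.col_apply]
      simp only [sg, if_true, Bool.false_eq_true, if_false]
      ring
    have h5 : |4 * (E k j + E j k)| ≤ 4 * (M * e ^ 2) := by
      rw [h4]
      refine (abs_add_le _ _).trans ?_
      have h6 := hellabs (Function.update (Function.update (fun _ => true) k true) j true)
      have h7 := hellabs (Function.update (Function.update (fun _ => true) k true) j false)
      have h8 := hellabs (Function.update (Function.update (fun _ => true) k false) j true)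
      have h9 := hellabs (Function.update (Function.update (fun _ => true) k false) j false)
      have h10 := abs_sub (ell (Function.update (Function.update (fun _ => true) k true) j true)
        - ell (Function.update (Function.update (fun _ => true) k true) j false))
        (ell (Function.update (Function.update (fun _ => true) k false) j true))
      have h11 := abs_sub (ell (Function.update (Function.update (fun _ => true) k true) j true))
        (ell (Function.update (Function.update (fun _ => true) k true) j false))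
      linarith
    rw [abs_mul, abs_of_pos (by norm_num : (0:ℝ) < 4)] at h5
    linarith
  -- step 3
  have hEzero : E = 0 := by
    have he_zero : e = 0 := by
      by_contra hne
      have hepos : 0 < e := lt_of_le_of_ne he0 (Ne.symm hne)
      set P : Matrix (Fin d) (Fin d) ℝ := E + Eᵀ + E * Eᵀ with hP
      have hfac : (1 + E) * (1 + E)ᵀ = 1 + P := by
        rw [hP, Matrix.transpose_add, Matrix.transpose_one]
        noncomm_ring
      have hPb : ∀ i j, |P i j| ≤ R * e ^ 2 := by
        intro i j
        rw [hP, Matrix.add_apply, Matrix.add_apply, Matrix.transpose_apply, Matrix.mul_apply]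
        have h1 : |E i j + E j i| ≤ M * e ^ 2 := by
          by_cases hij : i = j
          · subst hij
            rw [hE0]
            simp
            positivity
          · exact hsym i j hij
        have h2 : |∑ l, E i l * Eᵀ l j| ≤ d * e ^ 2 := by
          refine (Finset.abs_sum_le_sum_abs _ _).trans ?_
          have : ∀ l ∈ (Finset.univ : Finset (Fin d)), |E i l * Eᵀ l j| ≤ e ^ 2 := by
            intro l _
            rw [abs_mul, Matrix.transpose_apply, sq]
            exact mul_le_mul (heE _ _) (heE _ _) (abs_nonneg _) he0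
          refine (Finset.sum_le_sum this).trans ?_
          simp
        refine (abs_add_le _ _).trans ?_
        rw [hR]
        linarith
      have hPtr : e ^ 2 ≤ P.trace := by
        have h1 : P.trace = ∑ i, ∑ l, E i l * E i l := by
          rw [hP, Matrix.trace_add, Matrix.trace_add, Matrix.trace_transpose, htr]
          simp [Matrix.trace, Matrix.mul_apply]
        rw [h1]
        rcases hemax with h | ⟨k, j, hkj⟩
        · exact absurd h hne
        · have h2 : E k j * E k j = e ^ 2 := by
            rw [← abs_mul_abs_self, hkj, sq]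
          rw [← h2]
          have h3 : E k j * E k j ≤ ∑ l, E k l * E k l :=
            Finset.single_le_sum (f := fun l => E k l * E k l) (fun l _ => mul_self_nonneg _)
              (Finset.mem_univ j)
          refine h3.trans ?_
          exact Finset.single_le_sum (f := fun i => ∑ l, E i l * E i l)
            (fun i _ => Finset.sum_nonneg (fun l _ => mul_self_nonneg _)) (Finset.mem_univ k)
      have hp1 : R * e ^ 2 ≤ 1 := by
        have h1 : e ^ 2 ≤ ε := by nlinarith
        have h2 : R * e ^ 2 ≤ R * ε := mul_le_mul_of_nonneg_left h1 hRnn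
        have h3 : R ≤ (R + 1) ^ 2 := by nlinarith
        have h4 : 1 ≤ (C + 1) * (d + 1 : ℝ) := by nlinarith
        have h5 : R ≤ (C + 1) * (d + 1 : ℝ) * (R + 1) ^ 2 := by nlinarith
        have h6 : ε * R ≤ ε * ((C + 1) * (d + 1 : ℝ) * (R + 1) ^ 2) :=
          mul_le_mul_of_nonneg_left h5 hεpos.le
        nlinarith
      have h1 := hdet P (R * e ^ 2) (by positivity) hp1 hPb
      have h2 : (1 + P).det ≤ 1 := by
        rw [← hfac, Matrix.det_mul, Matrix.det_transpose, ← abs_mul_abs_self]
        have := abs_nonneg (1 + E).det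
        nlinarith
      have h3 := (abs_le.mp h1).1
      have h4 : e ^ 2 ≤ C * (R * e ^ 2) ^ 2 := by linarith
      have h5 : C * (R * e ^ 2) ^ 2 = (C * R ^ 2 * e ^ 2) * e ^ 2 := by ring
      rw [h5] at h4
      have h6 : 0 < e ^ 2 := by positivity
      have h7 : C * R ^ 2 * e ^ 2 < 1 := by
        have h8 : e ^ 2 ≤ ε := by nlinarith
        have h9 : C * R ^ 2 ≤ (C + 1) * (R + 1) ^ 2 := by
          apply mul_le_mul (by linarith) (by nlinarith) (by positivity) (by linarith)
        have h10 : C * R ^ 2 * e ^ 2 ≤ (C + 1) * (R + 1) ^ 2 * ε :=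
          mul_le_mul h9 h8 (by positivity) (by positivity)
        have h11 : (1:ℝ) ≤ d + 1 := by linarith
        have h12 : 0 ≤ (C + 1) * (R + 1) ^ 2 * ε := by positivity
        nlinarith
      nlinarith
    ext k j
    have := heE k j
    rw [he_zero] at this
    exact abs_nonpos_iff.mp this
  refine ⟨hEzero, ?_⟩
  funext k
  by_contra hgk
  have hgk' : g k ≠ 0 := hgk
  -- choose signs against g
  set s : Fin d → Bool := fun i => decide (g i < 0) with hs
  have h1 := hcond' s
  rw [hEzero] at h1
  simp only [add_zero, Matrix.det_one, abs_one] at h1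
  have heq : ∀ i, 1 + eta (0 : Matrix (Fin d) (Fin d) ℝ) g i s = 1 - |g i| := by
    intro i
    unfold eta
    simp only [Matrix.zero_apply, zero_mul, Finset.sum_const_zero, zero_add, hs]
    by_cases hi : g i < 0
    · simp [hi, sg, abs_of_neg hi]
    · push Not at hi
      simp [not_lt.mpr hi, sg, abs_of_nonneg hi]
      ring
  simp only [heq] at h1
  have hg1 : ∀ i, 0 ≤ 1 - |g i| := by
    intro i
    have := hgb i
    linarith
  have h2 : ∏ i, (1 - |g i|) ≤ 1 - |g k| := by
    rw [← Finset.mul_prod_erase _ _ (Finset.mem_univ k)]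
    have h3 : ∏ i ∈ (Finset.univ : Finset (Fin d)).erase k, (1 - |g i|) ≤ 1 := by
      apply Finset.prod_le_one
      · intro i _
        exact hg1 i
      · intro i _
        have := abs_nonneg (g i)
        linarith
    have := hg1 k
    nlinarith
  have h3 : 0 < |g k| := abs_pos.mpr hgk'
  linarith

end Pool.Agent.Helper5.MinkEq
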