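import Mathlib
import Pool.Agent.Helper5.MinkEq.Defs
import Pool.Agent.Helper5.MinkEq.Tri
import Pool.Agent.Helper5.MinkEq.Rat
import Pool.Agent.Helper5.MinkEq.Iso

namespace Pool.Agent.Helper5.MinkEq

open Matrix Finset

/-- An equality case close to the standard diagonal one is diagonal. -/
theorem iso_diag (d : ℕ) : ∃ ε : ℝ, 0 < ε ∧ ∀ (L : Matrix (Fin d) (Fin d) ℝ) (c : Fin d → ℝ),
    IsEqualityCase L c → (∀ k j, j ≠ k → |L k j| ≤ ε * |L k k|) →
    (∀ k, |2 * c k - L k k| ≤ ε * |L k k|) →
    (∀ k j, j ≠ k → L k j = 0) ∧ ∀ k, L k k = 2 * c k := by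
  classical
  obtain ⟨ε0, hε0, hiso⟩ := iso_norm d
  set ε : ℝ := ε0 / (d + 1) with hε
  have hdnn : (0:ℝ) ≤ d := Nat.cast_nonneg d
  have hεpos : 0 < ε := by positivity
  have hεε0 : ε * (d + 1) = ε0 := by
    rw [hε]; field_simp
  have hεle : ε ≤ ε0 := by nlinarith
  refine ⟨ε, hεpos, ?_⟩
  intro L c heq hoff hc
  obtain ⟨hL, hprod⟩ := heq
  have hdiag : ∀ k, L k k ≠ 0 := by
    intro k hk
    apply hL
    apply Matrix.det_eq_zero_of_row_eq_zero k
    intro j
    by_cases hj : j = k
    · rw [hj, hk]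
    · have := hoff k j hj
      rw [hk, abs_zero, mul_zero] at this
      exact abs_nonpos_iff.mp this
  have hdpos : ∀ k, 0 < |L k k| := fun k => abs_pos.mpr (hdiag k)
  set E : Matrix (Fin d) (Fin d) ℝ := Matrix.of (fun k j => if j = k then 0 else L k j / L k k)
    with hE
  set g : Fin d → ℝ := fun k => (2 * c k - ∑ j, L k j) / L k k with hg
  have hE0 : ∀ k, E k k = 0 := by
    intro k
    rw [hE, Matrix.of_apply, if_pos rfl]
  have hEkj : ∀ k j, |E k j| ≤ ε := by
    intro k j
    rw [hE, Matrix.of_apply]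
    split_ifs with h
    · simp [hεpos.le]
    · rw [abs_div, div_le_iff₀ (hdpos k)]
      exact hoff k j h
  have hLE : ∀ k j, L k j = L k k * (if j = k then 1 else 0) + L k k * E k j := by
    intro k j
    rw [hE, Matrix.of_apply]
    by_cases h : j = k
    · subst h; simp
    · have := hdiag k
      rw [if_neg h, if_neg h]
      field_simp
      ring
  have hLmat : L = Matrix.diagonal (fun k => L k k) * (1 + E) := by
    ext k j
    rw [Matrix.diagonal_mul, Matrix.add_apply, Matrix.one_apply, mul_add]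
    conv_lhs => rw [hLE k j]
    simp only [eq_comm (a := k) (b := j)]
  have hdetL : |L.det| = (∏ k, |L k k|) * |(1 + E).det| := by
    conv_lhs => rw [hLmat]
    rw [Matrix.det_mul, Matrix.det_diagonal, abs_mul, Finset.abs_prod]
  have hsum : ∀ (k : Fin d) (x : Fin d → ℝ), ∑ j, L k j * x j =
      L k k * (x k + ∑ j, E k j * x j) := by
    intro k x
    have h1 : ∀ j, L k j * x j = (if j = k then L k k * x j else 0) + L k k * (E k j * x j) := by
      intro j
      conv_lhs => rw [hLE k j]
      split_ifs <;> ring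
    simp only [h1]
    rw [Finset.sum_add_distrib, Finset.sum_ite_eq' Finset.univ k, if_pos (Finset.mem_univ k),
      ← Finset.mul_sum, mul_add]
  have hgk : ∀ k, 2 * c k - ∑ j, L k j = L k k * g k := by
    intro k
    simp only [hg]
    have := hdiag k
    field_simp
  have hgb : ∀ k, |g k| ≤ ε0 := by
    intro k
    have h1 : L k k * g k = (2 * c k - L k k) - L k k * ∑ j, E k j := by
      rw [← hgk k]
      have h2 := hsum k (fun _ => 1)
      simp only [mul_one] at h2
      rw [h2]
      ring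
    have h2 : |∑ j, E k j| ≤ d * ε := by
      refine (Finset.abs_sum_le_sum_abs _ _).trans ?_
      refine (Finset.sum_le_sum (fun j _ => hEkj k j)).trans ?_
      simp
    have h3 : |L k k| * |g k| ≤ |L k k| * ε0 := by
      rw [← abs_mul, h1]
      refine (abs_sub _ _).trans ?_
      rw [abs_mul]
      have h4 := hc k
      have h5 : |L k k| * |∑ j, E k j| ≤ |L k k| * (d * ε) :=
        mul_le_mul_of_nonneg_left h2 (abs_nonneg _)
      have h6 : |L k k| * ε0 = ε * |L k k| + |L k k| * (d * ε) := by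
        rw [← hεε0]; ring
      linarith
    exact le_of_mul_le_mul_left h3 (hdpos k)
  have hP : 0 < ∏ k, |L k k| := Finset.prod_pos (fun k _ => hdpos k)
  have hcond : ∀ s : Fin d → Bool, |(1 + E).det| ≤ ∏ k, |1 + eta E g k s| := by
    intro s
    have h1 := hprod (fun j => if s j then 0 else -1)
    have hcast : ∀ j, (((if s j then 0 else -1 : ℤ)) : ℝ) = (sg (s j) - 1) / 2 := by
      intro j
      cases s j <;> simp [sg]
      norm_num
    have hv : ∀ k, |(L *ᵥ fun j => (((if s j then 0 else -1 : ℤ)) : ℝ)) k + c k| =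
        |L k k| / 2 * |1 + eta E g k s| := by
      intro k
      have h2 : (L *ᵥ fun j => (((if s j then 0 else -1 : ℤ)) : ℝ)) k + c k =
          (L k k / 2) * (sg (s k) * (1 + eta E g k s)) := by
        have h3 : (L *ᵥ fun j => (((if s j then 0 else -1 : ℤ)) : ℝ)) k =
            ∑ j, L k j * ((sg (s j) - 1) / 2) := by
          simp only [Matrix.mulVec, dotProduct, hcast]
        rw [h3]
        have h4 : ∑ j, L k j * ((sg (s j) - 1) / 2) =
            (∑ j, L k j * sg (s j) - ∑ j, L k j) / 2 := by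
          rw [← Finset.sum_sub_distrib, Finset.sum_div]
          apply Finset.sum_congr rfl
          intro j _
          ring
        rw [h4, hsum k (fun j => sg (s j))]
        have h5 := hgk k
        unfold eta
        have h6 := sg_mul_self (s k)
        have h7 : sg (s k) * (1 + sg (s k) * (∑ j, E k j * sg (s j) + g k)) =
            sg (s k) + (∑ j, E k j * sg (s j) + g k) := by
          linear_combination (∑ j, E k j * sg (s j) + g k) * h6
        rw [h7]
        linear_combination (1/2) * h5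
      rw [h2, abs_mul, abs_mul, abs_sg, one_mul, abs_div, abs_of_pos (by norm_num : (0:ℝ) < 2)]
    rw [Finset.abs_prod] at h1
    simp only [hv] at h1
    rw [Finset.prod_mul_distrib, Finset.prod_div_distrib, hdetL] at h1
    simp only [Finset.prod_const, Finset.card_univ, Fintype.card_fin] at h1
    have h2 : (0:ℝ) < 2 ^ d := by positivity
    have h3 : (∏ k, |L k k|) * |(1 + E).det| / 2 ^ d = (∏ k, |L k k|) / 2 ^ d * |(1 + E).det| := by
      ring
    rw [h3] at h1
    exact le_of_mul_le_mul_left h1 (div_pos hP h2)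
  obtain ⟨hEz, hgz⟩ := hiso E g hE0 (fun k j => (hEkj k j).trans hεle) hgb hcond
  have hLoff : ∀ k j, j ≠ k → L k j = 0 := by
    intro k j hj
    rw [hLE k j, hEz, if_neg hj]
    simp
  refine ⟨hLoff, ?_⟩
  intro k
  have h1 := hgk k
  rw [hgz] at h1
  have h2 : ∑ j, L k j = L k k := by
    rw [Finset.sum_eq_single k]
    · intro j _ hj
      exact hLoff k j hj
    · intro h
      exact absurd (Finset.mem_univ k) h
  rw [h2] at h1
  simp only [Pi.zero_apply, mul_zero] at h1
  linarith

/-- Isolation of the standard configuration among equality cases. -/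
theorem isolation (d : ℕ) : ∃ ε : ℝ, 0 < ε ∧ ∀ (L : Matrix (Fin d) (Fin d) ℝ) (c : Fin d → ℝ),
    IsEqualityCase L c →
    (∃ (U : Matrix (Fin d) (Fin d) ℤ) (m : Fin d → ℤ), IsUnit U.det ∧
      ∀ k, (∀ j, j ≠ k → |(L * U.map (Int.cast : ℤ → ℝ)) k j| ≤
          ε * |(L * U.map (Int.cast : ℤ → ℝ)) k k|) ∧
        |2 * (c k + (L *ᵥ fun j => (m j : ℝ)) k) - (L * U.map (Int.cast : ℤ → ℝ)) k k| ≤
          ε * |(L * U.map (Int.cast : ℤ → ℝ)) k k|) →
    Diagonalisable L c := by
  classical
  obtain ⟨ε, hε, h⟩ := iso_diag d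
  refine ⟨ε, hε, ?_⟩
  rintro L c ⟨hL, hprod⟩ ⟨U, m, hU, hclose⟩
  set T : Matrix (Fin d) (Fin d) ℝ := L * U.map (Int.cast : ℤ → ℝ) with hT
  set c' : Fin d → ℝ := fun k => c k + (L *ᵥ fun j => (m j : ℝ)) k with hc'
  have hcastdet : (U.map (Int.cast : ℤ → ℝ)).det = ((U.det : ℤ) : ℝ) := by
    have := RingHom.map_det (Int.castRingHom ℝ) U
    simpa using this.symm
  have hUabs : |(U.det : ℝ)| = 1 := by
    rcases Int.isUnit_iff.mp hU with h | h
    · rw [h]; simp
    · rw [h]; simp
  have hTabs : |T.det| = |L.det| := by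
    rw [hT, Matrix.det_mul, hcastdet, abs_mul, hUabs, mul_one]
  have hTne : T.det ≠ 0 := by
    intro h0
    rw [h0, abs_zero] at hTabs
    exact hL (abs_eq_zero.mp hTabs.symm)
  have heqT : IsEqualityCase T c' := by
    refine ⟨hTne, ?_⟩
    intro n
    have h1 := hprod (U *ᵥ n + m)
    rw [hTabs]
    refine h1.trans (le_of_eq ?_)
    congr 1
    apply Finset.prod_congr rfl
    intro k _
    have h2 : (fun j => (((U *ᵥ n + m) j : ℤ) : ℝ)) =
        U.map (Int.cast : ℤ → ℝ) *ᵥ (fun j => (n j : ℝ)) + fun j => (m j : ℝ) := by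
      have h3 := ic_mulVec U n
      funext j
      have h4 := congrFun h3 j
      simp only [ic] at h4
      rw [Pi.add_apply, Pi.add_apply]
      push_cast
      rw [h4]
      rfl
    rw [h2, Matrix.mulVec_add, Pi.add_apply, Matrix.mulVec_mulVec, ← hT]
    simp only [hc']
    ring
  obtain ⟨hoff, hdiag⟩ := h T c' heqT (fun k j hj => (hclose k).1 j hj) (fun k => (hclose k).2)
  refine ⟨U, m, hU, ?_⟩
  intro k x
  rw [Matrix.mulVec_mulVec, ← hT]
  have h1 : (T *ᵥ x) k = T k k * x k := by
    simp only [Matrix.mulVec, dotProduct]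
    rw [Finset.sum_eq_single k]
    · intro j _ hj
      rw [hoff k j hj, zero_mul]
    · intro h
      exact absurd (Finset.mem_univ k) h
  rw [h1, hdiag k]

end Pool.Agent.Helper5.MinkEq
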