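import Mathlib
import Pool.Agent.Helper5.MinkEq.Defs
import Pool.Agent.Helper5.MinkEq.Tri
import Pool.Agent.Helper5.MinkEq.Rat
import Pool.Agent.Helper5.MinkEq.Cov

namespace Pool.Agent.Helper5.MinkEq

open Matrix Finset Filter

/-- Under the covering hypothesis the lattice is commensurable with the standard one. -/
theorem commensurable {d : ℕ} (L : Matrix (Fin d) (Fin d) ℝ) (c : Fin d → ℝ) (p : ℝ) (hp : 1 < p)
    (hL : L.det ≠ 0)
    (hprod : ∀ n : Fin d → ℤ, 1 ≤ ∏ k, |2 * ((L *ᵥ ic n) k + c k)|)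
    (hcov : ∀ y : Fin d → ℝ, ∃ n : Fin d → ℤ, ∑ k, |2 * ((L *ᵥ ic n) k + y k)| ^ p ≤ d) :
    ∃ (A : Matrix (Fin d) (Fin d) ℤ) (N : ℤ), N ≠ 0 ∧
      L * A.map (Int.cast : ℤ → ℝ) = (N : ℝ) • (1 : Matrix (Fin d) (Fin d) ℝ) := by
  classical
  set S : Set (Fin d → ℝ) := {w | ∃ n a : Fin d → ℤ, w = L *ᵥ ic n ∧ w = ic a} with hS
  have hspan : Submodule.span ℝ S = ⊤ := by
    by_contra hne
    obtain ⟨f, hf0, hf⟩ := Submodule.exists_le_ker_of_lt_top _ (lt_top_iff_ne_top.mpr hne)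
    set u : Fin d → ℝ := fun k => f (Pi.single k 1) with hu
    have hfu : ∀ x : Fin d → ℝ, f x = ∑ k, x k * u k := by
      intro x
      have h1 : x = ∑ k, x k • (Pi.single k (1:ℝ) : Fin d → ℝ) := by
        funext j
        simp [Finset.sum_apply, Pi.single_apply]
      conv_lhs => rw [h1]
      simp [map_sum, hu]
    have hune : u ≠ 0 := by
      intro h0
      apply hf0
      apply LinearMap.ext
      intro x
      rw [hfu x, h0]
      simp
    obtain ⟨n1, h1, h1'⟩ := direction L c p hp hL hprod hcov u hune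
    obtain ⟨n2, h2, h2'⟩ := direction L c p hp hL hprod hcov (-u) (neg_ne_zero.mpr hune)
    have hw : ic (fun k => 0) = (0 : Fin d → ℝ) := by
      funext k; simp [ic]
    have hint : ∀ k, ∃ a : ℤ, (L *ᵥ ic (n1 - n2)) k = (a : ℝ) := by
      intro k
      have e1 : (L *ᵥ ic (n1 - n2)) k =
          ((L *ᵥ ic n1) k + c k) - ((L *ᵥ ic n2) k + c k) := by
        rw [ic_sub, Matrix.mulVec_sub, Pi.sub_apply]
        ring
      have ha := h1 k
      have hb := h2 k
      rw [abs_eq (by norm_num)] at ha hb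
      rw [e1]
      rcases ha with ha | ha <;> rcases hb with hb | hb
      · exact ⟨0, by push_cast; linarith⟩
      · exact ⟨1, by push_cast; linarith⟩
      · exact ⟨-1, by push_cast; linarith⟩
      · exact ⟨0, by push_cast; linarith⟩
    choose a ha using hint
    have hmem : L *ᵥ ic (n1 - n2) ∈ S := ⟨n1 - n2, a, rfl, funext ha⟩
    have hker : f (L *ᵥ ic (n1 - n2)) = 0 := hf (Submodule.subset_span hmem)
    rw [hfu, ic_sub, Matrix.mulVec_sub] at hker
    have h3 : ∑ k, ((L *ᵥ ic n1) k + c k) * u k + ∑ k, ((L *ᵥ ic n2) k + c k) * (-u) k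
        = ∑ k, (L *ᵥ ic n1 - L *ᵥ ic n2) k * u k := by
      rw [← Finset.sum_add_distrib]
      apply Finset.sum_congr rfl
      intro k _
      simp only [Pi.neg_apply, Pi.sub_apply]
      ring
    rw [hker] at h3
    linarith
  obtain ⟨f, hfS, _, hfind⟩ := Submodule.exists_fun_fin_finrank_span_eq ℝ S
  have hfr : Module.finrank ℝ (Submodule.span ℝ S) = d := by
    rw [hspan]
    simp
  -- reindex by `Fin d`
  set g : Fin d → (Fin d → ℝ) := fun i => f (Fin.cast hfr.symm i) with hg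
  have hgind : LinearIndependent ℝ g :=
    hfind.comp _ (Fin.cast_injective hfr.symm)
  have hgS : ∀ i, g i ∈ S := fun i => hfS _
  choose n a hn ha using hgS
  set B : Matrix (Fin d) (Fin d) ℤ := Matrix.of (fun j i => n i j) with hB
  set W : Matrix (Fin d) (Fin d) ℤ := Matrix.of (fun j i => a i j) with hW
  have hLB : L * B.map (Int.cast : ℤ → ℝ) = W.map (Int.cast : ℤ → ℝ) := by
    ext k i
    have h1 := congrFun (hn i) k
    have h2 := congrFun (ha i) k
    rw [Matrix.mul_apply]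
    simp only [Matrix.mulVec, dotProduct, ic] at h1 h2
    simp only [hB, hW, Matrix.map_apply, Matrix.of_apply]
    rw [← h1, h2]
  have hWdet : W.det ≠ 0 := by
    intro h0
    have h1 : (W.map (Int.cast : ℤ → ℝ)).det = 0 := by
      have := RingHom.map_det (Int.castRingHom ℝ) W
      have h2 : (W.map (Int.cast : ℤ → ℝ)).det = ((W.det : ℤ) : ℝ) := by simpa using this.symm
      rw [h2, h0]; simp
    have h3 : LinearIndependent ℝ (W.map (Int.cast : ℤ → ℝ)).transpose.row := by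
      have : (W.map (Int.cast : ℤ → ℝ)).transpose.row = g := by
        funext i k
        have h2 := congrFun (ha i) k
        simp only [hW, Matrix.row, Matrix.transpose_apply, Matrix.map_apply, Matrix.of_apply]
        rw [h2]
        rfl
      rw [this]
      exact hgind
    rw [Matrix.linearIndependent_rows_iff_isUnit] at h3
    rw [Matrix.isUnit_iff_isUnit_det, Matrix.det_transpose, h1] at h3
    exact not_isUnit_zero h3
  refine ⟨B * W.adjugate, W.det, hWdet, ?_⟩
  have e1 : (B * W.adjugate).map (Int.cast : ℤ → ℝ) =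
      B.map (Int.cast : ℤ → ℝ) * W.adjugate.map (Int.cast : ℤ → ℝ) := by
    ext x y
    simp [Matrix.mul_apply]
  rw [e1, ← Matrix.mul_assoc, hLB]
  have e2 : W.map (Int.cast : ℤ → ℝ) * W.adjugate.map (Int.cast : ℤ → ℝ) =
      (W * W.adjugate).map (Int.cast : ℤ → ℝ) := by
    ext x y
    simp [Matrix.mul_apply]
  rw [e2, Matrix.mul_adjugate]
  ext x y
  rw [Matrix.map_apply, Matrix.smul_apply, Matrix.smul_apply, Matrix.one_apply,
          Matrix.one_apply]
  split_ifs <;> simp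

/-- The main theorem. -/
theorem main {d : ℕ} (L : Matrix (Fin d) (Fin d) ℝ) (c : Fin d → ℝ) (p : ℝ) (lam : Fin d → ℝ)
    (hp : 1 < p) (hlam : ∀ k, 0 < lam k) (hnorm : (∏ k, lam k) * |L.det| = 1)
    (hcov : ∀ y : Fin d → ℝ, ∃ n : Fin d → ℤ,
      ∑ k, |lam k * ((L *ᵥ fun j => (n j : ℝ)) k + y k)| ^ p ≤ d * (1 / 2) ^ p)
    (h : IsEqualityCase L c) : Diagonalisable L c := by
  classical
  obtain ⟨hL, hprod⟩ := h
  set L1 : Matrix (Fin d) (Fin d) ℝ := Matrix.diagonal lam * L with hL1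
  set c1 : Fin d → ℝ := fun k => lam k * c k with hc1
  have hlp : 0 < ∏ k, lam k := Finset.prod_pos (fun k _ => hlam k)
  have hdet1 : L1.det = (∏ k, lam k) * L.det := by
    rw [hL1, Matrix.det_mul, Matrix.det_diagonal]
  have habs1 : |L1.det| = 1 := by
    rw [hdet1, abs_mul, abs_of_pos hlp, hnorm]
  have hL1ne : L1.det ≠ 0 := by
    intro h0
    rw [h0, abs_zero] at habs1
    exact zero_ne_one habs1
  have hmul : ∀ (x : Fin d → ℝ) k, (L1 *ᵥ x) k = lam k * (L *ᵥ x) k := by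
    intro x k
    rw [hL1, ← Matrix.mulVec_mulVec, Matrix.mulVec_diagonal]
  have heq1 : IsEqualityCase L1 c1 := by
    refine ⟨hL1ne, ?_⟩
    intro n
    have h1 := hprod n
    have h2 : ∏ k, ((L1 *ᵥ fun j => (n j : ℝ)) k + c1 k) =
        (∏ k, lam k) * ∏ k, ((L *ᵥ fun j => (n j : ℝ)) k + c k) := by
      rw [← Finset.prod_mul_distrib]
      apply Finset.prod_congr rfl
      intro k _
      rw [hmul, hc1]
      ring
    rw [h2, abs_mul, abs_of_pos hlp, hdet1, abs_mul, abs_of_pos hlp, mul_div_assoc]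
    exact mul_le_mul_of_nonneg_left h1 hlp.le
  have hprod1 : ∀ n : Fin d → ℤ, 1 ≤ ∏ k, |2 * ((L1 *ᵥ ic n) k + c1 k)| := by
    intro n
    have h1 := heq1.2 n
    rw [habs1] at h1
    have h2 : ∏ k, |2 * ((L1 *ᵥ ic n) k + c1 k)| =
        2 ^ d * |∏ k, ((L1 *ᵥ fun j => (n j : ℝ)) k + c1 k)| := by
      rw [Finset.abs_prod]
      have : ∀ k, |2 * ((L1 *ᵥ ic n) k + c1 k)| = 2 * |(L1 *ᵥ ic n) k + c1 k| := by
        intro k
        rw [abs_mul, abs_of_pos (by norm_num : (0:ℝ) < 2)]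
      simp only [this]
      rw [Finset.prod_mul_distrib]
      simp only [Finset.prod_const, Finset.card_univ, Fintype.card_fin]
      rfl
    rw [h2]
    have h3 : (0:ℝ) < 2 ^ d := by positivity
    rw [div_le_iff₀ h3] at h1
    linarith
  have hcov1 : ∀ y : Fin d → ℝ, ∃ n : Fin d → ℤ,
      ∑ k, |2 * ((L1 *ᵥ ic n) k + y k)| ^ p ≤ d := by
    intro y
    obtain ⟨n, hn⟩ := hcov (fun k => y k / lam k)
    refine ⟨n, ?_⟩
    have h1 : ∀ k, |2 * ((L1 *ᵥ ic n) k + y k)| ^ p =
        2 ^ p * |lam k * ((L *ᵥ fun j => (n j : ℝ)) k + y k / lam k)| ^ p := by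
      intro k
      have e : (L1 *ᵥ ic n) k + y k =
          lam k * ((L *ᵥ fun j => (n j : ℝ)) k + y k / lam k) := by
        rw [hmul]
        have := (hlam k).ne'
        field_simp
        rfl
      rw [e, abs_mul, abs_of_pos (by norm_num : (0:ℝ) < 2),
        Real.mul_rpow (by norm_num) (abs_nonneg _)]
    simp only [h1]
    rw [← Finset.mul_sum]
    have h2 : (0:ℝ) < 2 ^ p := Real.rpow_pos_of_pos (by norm_num) p
    have h3 := mul_le_mul_of_nonneg_left hn h2.le
    refine h3.trans (le_of_eq ?_)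
    have h4 : (2:ℝ) ^ p * (1 / 2) ^ p = 1 := by
      rw [← Real.mul_rpow (by norm_num) (by norm_num)]
      norm_num
    calc (2:ℝ) ^ p * (d * (1 / 2) ^ p) = d * (2 ^ p * (1 / 2) ^ p) := by ring
      _ = d := by rw [h4, mul_one]
  obtain ⟨A, N, hN, hLA⟩ := commensurable L1 c1 p hp hL1ne hprod1 hcov1
  obtain ⟨U, m, hU, hUm⟩ := rational_case L1 c1 A N hN hLA heq1
  refine ⟨U, m, hU, ?_⟩
  intro k x
  have h1 := hUm k x
  rw [hmul, hmul, hc1] at h1
  have h2 := (hlam k).ne'
  have h3 : lam k * (L *ᵥ (U.map (Int.cast : ℤ → ℝ) *ᵥ x)) k =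
      lam k * (2 * (c k + (L *ᵥ fun j => (m j : ℝ)) k) * x k) := by
    rw [h1]; ring
  exact mul_left_cancel₀ h2 h3

end Pool.Agent.Helper5.MinkEq
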